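import Mathlib

open Polynomial

namespace Pool.Agent.Results.MP_734b60_nt.ThreeTimesPrime

lemma ident {k : ℕ} (hp : (3 * k + 2).Prime) (R : Type*) [CommRing R] :
    cyclotomic (3 * (3 * k + 2)) R * (X ^ 2 + X + 1) = X ^ (6 * k + 4) + X ^ (3 * k + 2) + 1 := by
  have hnd : ¬ (3 * k + 2) ∣ 3 := by
    intro h
    have := (Nat.prime_dvd_prime_iff_eq hp Nat.prime_three).1 h
    omega
  have h := cyclotomic_expand_eq_cyclotomic_mul hp hnd R
  rw [cyclotomic_three] at h
  rw [← h]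
  simp only [map_add, map_pow, expand_X, map_one]
  ring

lemma deriv1 {k : ℕ} (hp : (3 * k + 2).Prime) :
    derivative (cyclotomic (3 * (3 * k + 2)) ℤ) * (X ^ 2 + X + 1)
      + cyclotomic (3 * (3 * k + 2)) ℤ * (2 * X + 1)
      = C (6 * k + 4 : ℤ) * X ^ (6 * k + 3) + C (3 * k + 2 : ℤ) * X ^ (3 * k + 1) := by
  have h := congrArg derivative (ident hp ℤ)
  rw [derivative_mul] at h
  have e1 : derivative (X ^ 2 + X + 1 : ℤ[X]) = 2 * X + 1 := by
    simp only [derivative_add, derivative_X_pow, derivative_X, derivative_one]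
    norm_num
  have e2 : derivative (X ^ (6 * k + 4) + X ^ (3 * k + 2) + 1 : ℤ[X])
      = C (6 * k + 4 : ℤ) * X ^ (6 * k + 3) + C (3 * k + 2 : ℤ) * X ^ (3 * k + 1) := by
    simp only [derivative_add, derivative_X_pow, derivative_one]
    simp
  rw [e1, e2] at h
  exact h

lemma deriv2 {k : ℕ} (hp : (3 * k + 2).Prime) :
    derivative (derivative (cyclotomic (3 * (3 * k + 2)) ℤ)) * (X ^ 2 + X + 1)
      + 2 * (derivative (cyclotomic (3 * (3 * k + 2)) ℤ) * (2 * X + 1))
      + 2 * cyclotomic (3 * (3 * k + 2)) ℤ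
      = C ((6 * k + 4) * (6 * k + 3) : ℤ) * X ^ (6 * k + 2)
        + C ((3 * k + 2) * (3 * k + 1) : ℤ) * X ^ (3 * k) := by
  have h := congrArg derivative (deriv1 hp)
  rw [derivative_add, derivative_mul, derivative_mul] at h
  have e1 : derivative (X ^ 2 + X + 1 : ℤ[X]) = 2 * X + 1 := by
    simp only [derivative_add, derivative_X_pow, derivative_X, derivative_one]
    norm_num
  have e3 : derivative (2 * X + 1 : ℤ[X]) = 2 := by
    simp [derivative_mul]
  have e2 : derivative (C (6 * k + 4 : ℤ) * X ^ (6 * k + 3) + C (3 * k + 2 : ℤ) * X ^ (3 * k + 1)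
      : ℤ[X]) = C ((6 * k + 4) * (6 * k + 3) : ℤ) * X ^ (6 * k + 2)
        + C ((3 * k + 2) * (3 * k + 1) : ℤ) * X ^ (3 * k) := by
    simp only [derivative_add, derivative_C_mul, derivative_X_pow]
    simp
    ring
  rw [e1, e2, e3] at h
  linear_combination h

/-- The value of the derivative at a primitive cube root of unity. -/
lemma value {k : ℕ} (hp : (3 * k + 2).Prime) {S : Type*} [CommRing S]
    (ev : ℤ[X] →+* S) (hw : (ev X) ^ 2 + ev X + 1 = 0) :
    -6 * ev (derivative (cyclotomic (3 * (3 * k + 2)) ℤ))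
      = (3 * k + 2) * (5 * (3 * k + 2) - 7) - 2 * (3 * k + 2) * ((3 * k + 2) + 1) * ev X := by
  set w := ev X with hwdef
  set f := ev (derivative (cyclotomic (3 * (3 * k + 2)) ℤ)) with hf
  set φ := ev (cyclotomic (3 * (3 * k + 2)) ℤ) with hφ
  have hC : ∀ z : ℤ, ev (C z) = (z : S) := fun z => by
    have := map_intCast (ev.comp (C : ℤ →+* ℤ[X])) z
    simpa using this
  have h2 : ev (2 : ℤ[X]) = 2 := map_ofNat ev 2
  have E1 := congrArg ev (deriv1 hp)
  have E2 := congrArg ev (deriv2 hp)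
  simp only [map_add, map_mul, map_pow, map_one, hC, h2, ← hwdef, ← hf, ← hφ] at E1 E2
  rw [hw] at E1 E2
  have w3 : w ^ 3 = 1 := by linear_combination (w - 1) * hw
  have p1 : w ^ (6 * k + 3) = 1 := by
    rw [show 6 * k + 3 = 3 * (2 * k + 1) by ring, pow_mul, w3, one_pow]
  have p2 : w ^ (3 * k + 1) = w := by
    rw [pow_add, pow_mul, w3, one_pow]; ring
  have p3 : w ^ (6 * k + 2) = w ^ 2 := by
    rw [show 6 * k + 2 = 3 * (2 * k) + 2 by ring, pow_add, pow_mul, w3, one_pow]; ring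
  have p4 : w ^ (3 * k) = 1 := by
    rw [pow_mul, w3, one_pow]
  rw [p1, p2] at E1
  rw [p3, p4] at E2
  push_cast at E1 E2
  have E1' : φ * (2 * w + 1) = (3 * (k : S) + 2) * w + 2 * (3 * (k : S) + 2) := by
    linear_combination E1
  have E2' : 2 * (f * (2 * w + 1)) + 2 * φ = (3 * (k : S) + 2) * ((3 * (k : S) + 2) - 1)
      + 2 * (3 * (k : S) + 2) * (2 * (3 * (k : S) + 2) - 1) * w ^ 2 := by
    linear_combination E2
  linear_combination (2 * w + 1) * E2' - 2 * E1'
    + (-8 * f + 2 * (3 * (k : S) + 2) * (2 * (3 * (k : S) + 2) - 1) * (2 * w - 1)) * hw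

/-- `X ^ 2 + X + 1` is irreducible modulo a prime congruent to 2 modulo 3. -/
lemma psi_irr {k : ℕ} (hp : (3 * k + 2).Prime) :
    Irreducible (X ^ 2 + X + 1 : (ZMod (3 * k + 2))[X]) := by
  have := Fact.mk hp
  have hdeg : (X ^ 2 + X + 1 : (ZMod (3 * k + 2))[X]).natDegree = 2 := by compute_degree!
  have hmon : (X ^ 2 + X + 1 : (ZMod (3 * k + 2))[X]).Monic := by monicity!
  rw [hmon.irreducible_iff_roots_eq_zero_of_degree_le_three (by omega) (by omega)]
  rw [Multiset.eq_zero_iff_forall_notMem]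
  intro a ha
  have hroot : a ^ 2 + a + 1 = 0 := by
    have := (mem_roots'.1 ha).2
    simpa [IsRoot] using this
  have h3 : a ^ 3 = 1 := by linear_combination (a - 1) * hroot
  have ha0 : a ≠ 0 := by
    rintro rfl
    simp at hroot
  have hfer : a ^ (3 * k + 1) = 1 := by
    have := ZMod.pow_card_sub_one_eq_one ha0
    simpa using this
  rw [pow_add, pow_mul, h3, one_pow, one_mul, pow_one] at hfer
  rw [hfer] at hroot
  have h30 : ((3 : ℕ) : ZMod (3 * k + 2)) = 0 := by
    push_cast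
    linear_combination hroot
  rw [ZMod.natCast_eq_zero_iff] at h30
  have := (Nat.prime_dvd_prime_iff_eq hp Nat.prime_three).1 h30
  omega

lemma modp {k : ℕ} (hp : (3 * k + 2).Prime) :
    (derivative (cyclotomic (3 * (3 * k + 2)) ℤ)).map (Int.castRingHom (ZMod (3 * k + 2)))
      = -((X ^ 2 + X + 1) ^ (3 * k) * (2 * X + 1)) := by
  have := Fact.mk hp
  set Ψ : (ZMod (3 * k + 2))[X] := X ^ 2 + X + 1 with hΨ
  have hΨ0 : Ψ ≠ 0 := (psi_irr hp).ne_zero
  have h1 := ident hp (ZMod (3 * k + 2))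
  have h2 : (X ^ (6 * k + 4) + X ^ (3 * k + 2) + 1 : (ZMod (3 * k + 2))[X])
      = Ψ ^ (3 * k + 1) * Ψ := by
    have hexp := ZMod.expand_card (p := 3 * k + 2) Ψ
    have hexp2 : expand (ZMod (3 * k + 2)) (3 * k + 2) Ψ
        = X ^ (6 * k + 4) + X ^ (3 * k + 2) + 1 := by
      simp only [hΨ, map_add, map_pow, expand_X, map_one]
      ring
    rw [← hexp2, hexp, ← pow_succ]
  rw [h2] at h1
  have h3 : cyclotomic (3 * (3 * k + 2)) (ZMod (3 * k + 2)) = Ψ ^ (3 * k + 1) :=
    mul_right_cancel₀ hΨ0 h1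
  rw [← derivative_map, map_cyclotomic, h3, derivative_pow]
  have e1 : derivative Ψ = 2 * X + 1 := by
    simp only [hΨ, derivative_add, derivative_X_pow, derivative_X, derivative_one]
    norm_num
    exact map_ofNat C 2
  have e2 : ((3 * k + 1 : ℕ) : ZMod (3 * k + 2)) = -1 := by
    have : ((3 * k + 2 : ℕ) : ZMod (3 * k + 2)) = 0 := ZMod.natCast_self _
    push_cast at this ⊢
    linear_combination this
  rw [e1, e2]
  simp

lemma eval_zero {k : ℕ} (hp : (3 * k + 2).Prime) :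
    (derivative (cyclotomic (3 * (3 * k + 2)) ℤ)).coeff 0 = -1 := by
  have hp2 := hp.two_le
  have h0 : (cyclotomic (3 * (3 * k + 2)) ℤ).eval 0 = 1 := by
    have := congrArg (eval 0) (ident hp ℤ)
    simpa using this
  have h1 := congrArg (eval 0) (deriv1 hp)
  simp only [eval_add, eval_mul, eval_pow, eval_X, eval_one, eval_C] at h1
  rw [coeff_zero_eq_eval_zero]
  have e1 : (0 : ℤ) ^ (6 * k + 3) = 0 := zero_pow (by omega)
  have e2 : (0 : ℤ) ^ (3 * k + 1) = 0 := zero_pow (by omega)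
  rw [e1, e2, h0] at h1
  linarith

lemma lead {k : ℕ} (hp : (3 * k + 2).Prime) :
    (derivative (cyclotomic (3 * (3 * k + 2)) ℤ)).leadingCoeff = 6 * k + 2 := by
  have hdeg : (cyclotomic (3 * (3 * k + 2)) ℤ).natDegree = 6 * k + 2 := by
    rw [natDegree_cyclotomic, Nat.totient_mul, Nat.totient_prime Nat.prime_three,
      Nat.totient_prime hp]
    · omega
    · rw [Nat.coprime_comm, Nat.Prime.coprime_iff_not_dvd hp]
      intro h
      have := (Nat.prime_dvd_prime_iff_eq hp Nat.prime_three).1 h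
      omega
  have hco : (derivative (cyclotomic (3 * (3 * k + 2)) ℤ)).coeff (6 * k + 1) = 6 * k + 2 := by
    rw [coeff_derivative]
    have : (cyclotomic (3 * (3 * k + 2)) ℤ).coeff (6 * k + 1 + 1) = 1 := by
      have := (cyclotomic.monic (3 * (3 * k + 2)) ℤ).coeff_natDegree
      rwa [hdeg] at this
    rw [this]; push_cast; ring
  have hle : (derivative (cyclotomic (3 * (3 * k + 2)) ℤ)).natDegree ≤ 6 * k + 1 := by
    have := natDegree_derivative_le (cyclotomic (3 * (3 * k + 2)) ℤ)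
    omega
  have hne : (derivative (cyclotomic (3 * (3 * k + 2)) ℤ)).coeff (6 * k + 1) ≠ 0 := by
    rw [hco]; positivity
  have hge := le_natDegree_of_ne_zero hne
  rw [leadingCoeff, show (derivative (cyclotomic (3 * (3 * k + 2)) ℤ)).natDegree = 6 * k + 1 by
    omega, hco]

lemma natDeg {k : ℕ} (hp : (3 * k + 2).Prime) :
    (derivative (cyclotomic (3 * (3 * k + 2)) ℤ)).natDegree ≠ 0 := by
  intro h
  have h1 := lead hp
  rw [leadingCoeff, h, eval_zero hp] at h1
  omega

lemma lift {k : ℕ} {G : ℤ[X]}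
    (h : (X ^ 2 + X + 1 : (ZMod (3 * k + 2))[X]) ∣ G.map (Int.castRingHom (ZMod (3 * k + 2)))) :
    ∃ A B : ℤ[X], G = (X ^ 2 + X + 1) * B + C ((3 * k + 2 : ℕ) : ℤ) * A := by
  obtain ⟨Bp, hBp⟩ := h
  obtain ⟨B, hB⟩ := map_surjective (Int.castRingHom (ZMod (3 * k + 2)))
    (ZMod.intCast_surjective) Bp
  have hz : (G - (X ^ 2 + X + 1) * B).map (Int.castRingHom (ZMod (3 * k + 2))) = 0 := by
    rw [Polynomial.map_sub, Polynomial.map_mul, hBp, hB]
    simp
  have hdvd : C ((3 * k + 2 : ℕ) : ℤ) ∣ G - (X ^ 2 + X + 1) * B := by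
    rw [C_dvd_iff_dvd_coeff]
    intro i
    have := congrArg (fun f => coeff f i) hz
    simp only [coeff_map, coeff_zero, eq_intCast] at this
    exact (CharP.intCast_eq_zero_iff (ZMod (3 * k + 2)) (3 * k + 2) _).1 this
  obtain ⟨A, hA⟩ := hdvd
  exact ⟨A, B, by linear_combination hA⟩

lemma not_both {k : ℕ} (hp : (3 * k + 2).Prime) (hk : 1 ≤ k) {G H : ℤ[X]}
    (hGH : derivative (cyclotomic (3 * (3 * k + 2)) ℤ) = G * H)
    (hG : (X ^ 2 + X + 1 : (ZMod (3 * k + 2))[X]) ∣ G.map (Int.castRingHom (ZMod (3 * k + 2))))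
    (hH : (X ^ 2 + X + 1 : (ZMod (3 * k + 2))[X]) ∣ H.map (Int.castRingHom (ZMod (3 * k + 2)))) :
    False := by
  have := Fact.mk hp
  obtain ⟨A, B, hA⟩ := lift hG
  obtain ⟨A', B', hA'⟩ := lift hH
  have hmk : AdjoinRoot.mk (X ^ 2 + X + 1 : ℤ[X]) (X ^ 2 + X + 1) = 0 := AdjoinRoot.mk_self
  have hw : (AdjoinRoot.mk (X ^ 2 + X + 1 : ℤ[X]) X) ^ 2
      + AdjoinRoot.mk (X ^ 2 + X + 1 : ℤ[X]) X + 1 = 0 := by
    rw [← hmk]; simp only [map_add, map_pow, map_one]
  have hv := value hp (AdjoinRoot.mk (X ^ 2 + X + 1 : ℤ[X])) hw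
  have hdiv : (X ^ 2 + X + 1 : ℤ[X]) ∣ C ((3 * k + 2 : ℕ) : ℤ) *
      (6 * (C ((3 * k + 2 : ℕ) : ℤ) * (A * A')) + C (5 * ((3 * k + 2 : ℕ) : ℤ) - 7)
        - C (2 * (((3 * k + 2 : ℕ) : ℤ) + 1)) * X) := by
    rw [← AdjoinRoot.mk_eq_zero]
    have h1 : AdjoinRoot.mk (X ^ 2 + X + 1 : ℤ[X]) (derivative (cyclotomic (3 * (3 * k + 2)) ℤ))
        = AdjoinRoot.mk (X ^ 2 + X + 1 : ℤ[X])
          (C ((3 * k + 2 : ℕ) : ℤ) * (C ((3 * k + 2 : ℕ) : ℤ) * (A * A'))) := by
      rw [hGH, hA, hA']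
      simp only [map_mul, map_add]
      simp only [map_add] at hmk
      rw [hmk]
      ring
    rw [h1] at hv
    simp only [map_mul, map_sub, map_add, map_natCast, map_ofNat, map_one,
      Nat.cast_add, Nat.cast_mul, Nat.cast_ofNat] at hv ⊢
    linear_combination (-1 : AdjoinRoot (X ^ 2 + X + 1 : ℤ[X])) * hv
  have hprime : Prime (X ^ 2 + X + 1 : ℤ[X]) := by
    have h := (cyclotomic.irreducible (n := 3) (by norm_num)).prime
    rwa [cyclotomic_three] at h
  rcases hprime.dvd_or_dvd hdiv with h | h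
  · have hne : (C ((3 * k + 2 : ℕ) : ℤ) : ℤ[X]) ≠ 0 := by
      rw [Ne, C_eq_zero]; positivity
    have h1 := natDegree_le_of_dvd h hne
    have h2 : (X ^ 2 + X + 1 : ℤ[X]).natDegree = 2 := by compute_degree!
    rw [h2, natDegree_C] at h1
    omega
  · have h1 := map_dvd (mapRingHom (Int.castRingHom (ZMod (3 * k + 2)))) h
    have hp0 : ((3 * k + 2 : ℕ) : ZMod (3 * k + 2)) = 0 := ZMod.natCast_self _
    have hp0' : (3 * (k : ZMod (3 * k + 2)) + 2) = 0 := by
      have := hp0; push_cast at this; exact this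
    have h2 : (mapRingHom (Int.castRingHom (ZMod (3 * k + 2))))
      (6 * (C ((3 * k + 2 : ℕ) : ℤ) * (A * A')) + C (5 * ((3 * k + 2 : ℕ) : ℤ) - 7)
        - C (2 * (((3 * k + 2 : ℕ) : ℤ) + 1)) * X) = C (-2) * X + C (-7) := by
      simp only [map_sub, map_add, map_mul, coe_mapRingHom, map_C, map_X]
      have q1 : (Int.castRingHom (ZMod (3 * k + 2))) ((3 * k + 2 : ℕ) : ℤ) = 0 := by
        simp only [eq_intCast, Int.cast_natCast]; exact hp0
      simp only [q1]
      simp
      ring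
    have h3 : (mapRingHom (Int.castRingHom (ZMod (3 * k + 2)))) (X ^ 2 + X + 1)
        = X ^ 2 + X + 1 := by simp
    rw [h2, h3] at h1
    have h20 : (-2 : ZMod (3 * k + 2)) ≠ 0 := by
      intro hz
      have : ((2 : ℕ) : ZMod (3 * k + 2)) = 0 := by push_cast; linear_combination -hz
      rw [ZMod.natCast_eq_zero_iff] at this
      have := Nat.le_of_dvd (by norm_num) this
      omega
    have hne : (C (-2) * X + C (-7) : (ZMod (3 * k + 2))[X]) ≠ 0 := by
      intro hz
      have := congrArg (fun f => coeff f 1) hz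
      simp at this
      exact h20 (by linear_combination -this)
    have h4 := natDegree_le_of_dvd h1 hne
    have h5 : (X ^ 2 + X + 1 : (ZMod (3 * k + 2))[X]).natDegree = 2 := by compute_degree!
    have h6 : (C (-2) * X + C (-7) : (ZMod (3 * k + 2))[X]).natDegree ≤ 1 := natDegree_linear_le
    omega

/-- No root of the derivative of the shape `-1/2` or `1/(6k+2)`. -/
lemma no_root {k : ℕ} (hp : (3 * k + 2).Prime) (hk : 1 ≤ k) (r : ℚ)
    (hr : r = -1 / 2 ∨ r = 1 / (6 * k + 2))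
    (h0 : eval₂RingHom (Int.castRingHom ℚ) r (derivative (cyclotomic (3 * (3 * k + 2)) ℤ)) = 0) :
    False := by
  have hX : eval₂RingHom (Int.castRingHom ℚ) r X = r := by simp
  have hC : ∀ z : ℤ, eval₂RingHom (Int.castRingHom ℚ) r (C z) = z := by intro z; simp
  have I := congrArg (eval₂RingHom (Int.castRingHom ℚ) r) (ident hp ℤ)
  have D := congrArg (eval₂RingHom (Int.castRingHom ℚ) r) (deriv1 hp)
  simp only [map_add, map_mul, map_pow, map_one, hX, hC, map_ofNat, h0] at I D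
  set φ := eval₂RingHom (Int.castRingHom ℚ) r (cyclotomic (3 * (3 * k + 2)) ℤ)
  push_cast at D
  have key : (r ^ (6 * k + 4) + r ^ (3 * k + 2) + 1) * (2 * r + 1)
      = ((6 * (k : ℚ) + 4) * r ^ (6 * k + 3) + (3 * k + 2) * r ^ (3 * k + 1)) * (r ^ 2 + r + 1) := by
    linear_combination (-(2 * r + 1)) * I + (r ^ 2 + r + 1) * D
  have hkq : (1 : ℚ) ≤ k := by exact_mod_cast hk
  rcases hr with hr | hr
  · have h2 : 2 * r + 1 = 0 := by rw [hr]; ring
    have h3 : r ^ 2 + r + 1 = 3 / 4 := by rw [hr]; ring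
    rw [h2, h3] at key
    have h4 : (3 * (k : ℚ) + 2) * r ^ (3 * k + 1) * (2 * r ^ (3 * k + 2) + 1) = 0 := by
      have e : r ^ (6 * k + 3) = r ^ (3 * k + 1) * r ^ (3 * k + 2) := by
        rw [← pow_add]; congr 1; ring
      rw [e] at key
      linear_combination (-4 / 3 : ℚ) * key
    have hr0 : r ≠ 0 := by rw [hr]; norm_num
    have h5 : (3 * (k : ℚ) + 2) * r ^ (3 * k + 1) ≠ 0 :=
      mul_ne_zero (by positivity) (pow_ne_zero _ hr0)
    have h6 : 2 * r ^ (3 * k + 2) + 1 = 0 := (mul_eq_zero.1 h4).resolve_left h5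
    have h7 : |r ^ (3 * k + 2)| ≤ 1 / 4 := by
      rw [abs_pow]
      have : |r| = 1 / 2 := by rw [hr]; norm_num [abs_of_neg]
      rw [this]
      calc (1 / 2 : ℚ) ^ (3 * k + 2) ≤ (1 / 2 : ℚ) ^ 2 :=
            pow_le_pow_of_le_one (by norm_num) (by norm_num) (by omega)
        _ = 1 / 4 := by norm_num
    have h8 := (abs_le.1 h7).1
    linarith
  · have hpos : 0 < r := by rw [hr]; positivity
    have hle : r ≤ 1 / 8 := by
      rw [hr]
      exact one_div_le_one_div_of_le (by norm_num) (by linarith)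
    have hpr : (3 * (k : ℚ) + 2) * r ≤ 1 := by
      rw [hr, mul_one_div, div_le_one (by positivity)]
      linarith
    have hr1 : r ≤ 1 := by linarith
    have a1 : (3 * (k : ℚ) + 2) * r ^ (3 * k + 1) ≤ 1 / 8 := by
      calc (3 * (k : ℚ) + 2) * r ^ (3 * k + 1) = ((3 * (k : ℚ) + 2) * r) * r ^ (3 * k) := by
            rw [pow_succ]; ring
        _ ≤ 1 * r ^ (3 * k) := mul_le_mul_of_nonneg_right hpr (by positivity)
        _ = r ^ (3 * k) := one_mul _
        _ ≤ r ^ 1 := pow_le_pow_of_le_one hpos.le hr1 (by omega)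
        _ ≤ 1 / 8 := by rw [pow_one]; exact hle
    have a2 : (6 * (k : ℚ) + 4) * r ^ (6 * k + 3) ≤ 1 / 4 := by
      calc (6 * (k : ℚ) + 4) * r ^ (6 * k + 3)
            = 2 * (((3 * (k : ℚ) + 2) * r) * r ^ (6 * k + 2)) := by
            rw [pow_succ]; ring
        _ ≤ 2 * (1 * r ^ (6 * k + 2)) := by
            apply mul_le_mul_of_nonneg_left _ (by norm_num)
            exact mul_le_mul_of_nonneg_right hpr (by positivity)
        _ = 2 * r ^ (6 * k + 2) := by ring
        _ ≤ 2 * r ^ 1 := by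
            apply mul_le_mul_of_nonneg_left _ (by norm_num)
            exact pow_le_pow_of_le_one hpos.le hr1 (by omega)
        _ ≤ 1 / 4 := by rw [pow_one]; linarith
    have a3 : r ^ 2 + r + 1 ≤ 5 / 4 := by nlinarith
    have b1 : 0 < r ^ (6 * k + 4) := by positivity
    have b2 : 0 < r ^ (3 * k + 2) := by positivity
    have c1 : 1 < (r ^ (6 * k + 4) + r ^ (3 * k + 2) + 1) * (2 * r + 1) := by
      nlinarith [mul_pos b1 hpos, mul_pos b2 hpos]
    have c2 : ((6 * (k : ℚ) + 4) * r ^ (6 * k + 3) + (3 * k + 2) * r ^ (3 * k + 1))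
        * (r ^ 2 + r + 1) ≤ (3 / 8) * (5 / 4) := by
      apply mul_le_mul (by linarith) a3 (by positivity) (by norm_num)
    rw [key] at c1
    linarith

lemma small {k : ℕ} (hp : (3 * k + 2).Prime) (hk : 1 ≤ k) {G H : ℤ[X]}
    (hGH : derivative (cyclotomic (3 * (3 * k + 2)) ℤ) = G * H)
    (hH : ¬ (X ^ 2 + X + 1 : (ZMod (3 * k + 2))[X]) ∣ H.map (Int.castRingHom (ZMod (3 * k + 2)))) :
    IsUnit H := by
  have := Fact.mk hp
  have hp0 : ((3 * k + 2 : ℕ) : ZMod (3 * k + 2)) = 0 := ZMod.natCast_self _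
  have hp0' : (3 * (k : ZMod (3 * k + 2)) + 2) = 0 := by
    have := hp0; push_cast at this; exact this
  have h20 : (2 : ZMod (3 * k + 2)) ≠ 0 := by
    intro hz
    have : ((2 : ℕ) : ZMod (3 * k + 2)) = 0 := by push_cast; exact hz
    rw [ZMod.natCast_eq_zero_iff] at this
    have := Nat.le_of_dvd (by norm_num) this
    omega
  set Hp := H.map (Int.castRingHom (ZMod (3 * k + 2))) with hHp
  have hcop : IsCoprime (X ^ 2 + X + 1 : (ZMod (3 * k + 2))[X]) Hp :=
    (psi_irr hp).coprime_iff_not_dvd.2 hH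
  have hcop2 : IsCoprime Hp ((X ^ 2 + X + 1 : (ZMod (3 * k + 2))[X]) ^ (3 * k)) :=
    hcop.symm.pow_right
  have hm := modp hp
  rw [hGH, Polynomial.map_mul] at hm
  have hd1 : Hp ∣ (X ^ 2 + X + 1 : (ZMod (3 * k + 2))[X]) ^ (3 * k) * (2 * X + 1) := by
    rw [← dvd_neg, ← hm]
    exact dvd_mul_left _ _
  have hd : Hp ∣ (2 * X + 1 : (ZMod (3 * k + 2))[X]) := hcop2.dvd_of_dvd_mul_left hd1
  have hne : (2 * X + 1 : (ZMod (3 * k + 2))[X]) ≠ 0 := by
    intro hz
    have := congrArg (eval 0) hz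
    simp at this
  have hdeg1 : (2 * X + 1 : (ZMod (3 * k + 2))[X]).natDegree ≤ 1 := by compute_degree
  have hdegp : Hp.natDegree ≤ 1 := (natDegree_le_of_dvd hd hne).trans hdeg1
  have hlead : G.leadingCoeff * H.leadingCoeff = 6 * k + 2 := by
    rw [← leadingCoeff_mul, ← hGH]; exact lead hp
  have hlc : (Int.castRingHom (ZMod (3 * k + 2))) H.leadingCoeff ≠ 0 := by
    intro hz
    have h1 := congrArg (Int.castRingHom (ZMod (3 * k + 2))) hlead
    rw [map_mul, hz, mul_zero] at h1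
    simp at h1
    apply h20
    linear_combination h1 + 2 * hp0'
  have hdegH : H.natDegree ≤ 1 := by
    rw [← natDegree_map_of_leadingCoeff_ne_zero _ hlc]; exact hdegp
  obtain ⟨a, b, hab⟩ := exists_eq_X_add_C_of_natDegree_le_one hdegH
  have hc0 : G.coeff 0 * b = -1 := by
    have h1 := congrArg (fun f => coeff f 0) hGH
    simp only [mul_coeff_zero, eval_zero hp] at h1
    rw [hab] at h1
    simpa using h1.symm
  have hb : b * b = 1 := by
    have : IsUnit b := by
      rw [Int.isUnit_iff_natAbs_eq]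
      have h1 := congrArg Int.natAbs hc0
      rw [Int.natAbs_mul] at h1
      exact Nat.eq_one_of_mul_eq_one_left h1
    exact Int.isUnit_mul_self this
  by_cases ha : a = 0
  · rw [hab, ha]
    simp only [map_zero, zero_mul, zero_add]
    rw [isUnit_C]
    exact IsUnit.of_mul_eq_one b hb
  exfalso
  have hlH : H.leadingCoeff = a := by
    rw [hab]; exact leadingCoeff_linear ha
  rw [hlH] at hlead hlc
  -- the congruence a = 2 b
  have hmod : ((3 * k + 2 : ℕ) : ℤ) ∣ a - 2 * b := by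
    obtain ⟨Q, hQ⟩ := hd
    have hHp2 : Hp = C (a : ZMod (3 * k + 2)) * X + C (b : ZMod (3 * k + 2)) := by
      rw [hHp, hab]; simp
    rw [hHp2] at hQ
    have ha' : (a : ZMod (3 * k + 2)) ≠ 0 := by simpa using hlc
    have h1 := congrArg (eval (-(b : ZMod (3 * k + 2)) / a)) hQ
    simp only [eval_add, eval_mul, eval_C, eval_X, eval_one, eval_ofNat] at h1
    have h2 : (a : ZMod (3 * k + 2)) * (-(b : ZMod (3 * k + 2)) / a) + b = 0 := by
      field_simp; ring
    rw [h2, zero_mul] at h1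
    have h3 : (a : ZMod (3 * k + 2)) - 2 * b = 0 := by
      field_simp at h1
      linear_combination h1
    rw [← CharP.intCast_eq_zero_iff (ZMod (3 * k + 2)) (3 * k + 2)]
    push_cast
    exact h3
  obtain ⟨t, ht⟩ := hmod
  push_cast at ht
  set c := a * b with hc
  have hcs : c = 2 + (3 * (k : ℤ) + 2) * (t * b) := by
    rw [hc]
    linear_combination b * ht + 2 * hb
  set s := t * b with hs
  have hcd : c * (b * G.leadingCoeff) = 6 * k + 2 := by
    rw [hc]
    linear_combination hlead + (a * G.leadingCoeff) * hb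
  have hkz : (1 : ℤ) ≤ k := by exact_mod_cast hk
  have hcabs : |c| ≤ 6 * k + 2 := by
    have h1 : c ∣ 6 * (k : ℤ) + 2 := ⟨_, hcd.symm⟩
    exact (abs_dvd_abs c _).2 h1 |> fun h => by
      have := Int.le_of_dvd (by positivity) ((abs_dvd c _).2 h1)
      exact this
  have hb1 := (abs_le.1 hcabs).1
  have hb2 := (abs_le.1 hcabs).2
  have hs1 : -2 ≤ s := by
    by_contra hcon
    have : s ≤ -3 := by omega
    nlinarith
  have hs2 : s ≤ 1 := by
    by_contra hcon
    have : 2 ≤ s := by omega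
    nlinarith
  have hroot : eval₂RingHom (Int.castRingHom ℚ) (-1 / (c : ℚ))
      (derivative (cyclotomic (3 * (3 * k + 2)) ℤ)) = 0 := by
    have hc0' : (c : ℚ) ≠ 0 := by
      have : c ≠ 0 := by
        intro h; rw [h, zero_mul] at hcd; omega
      exact_mod_cast this
    rw [hGH, map_mul]
    have : eval₂RingHom (Int.castRingHom ℚ) (-1 / (c : ℚ)) H = 0 := by
      rw [hab]
      simp only [map_add, map_mul, coe_eval₂RingHom, eval₂_C, eval₂_X]
      simp only [eq_intCast]
      have hbq : (b : ℚ) * b = 1 := by exact_mod_cast hb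
      have hcq : (c : ℚ) = a * b := by rw [hc]; push_cast; ring
      rw [hcq] at hc0' ⊢
      have hmul : (a : ℚ) * (-1 / (a * b)) = -b := by
        rw [mul_div_assoc', div_eq_iff hc0']
        linear_combination (a : ℚ) * hbq
      rw [hmul]
      ring
    rw [this, mul_zero]
  have hcases : s = -2 ∨ s = -1 ∨ s = 0 ∨ s = 1 := by omega
  rcases hcases with h | h | h | h
  · rw [h] at hcs
    have hcq : (c : ℚ) = -(6 * k + 2) := by
      rw [hcs]; push_cast; ring
    rw [hcq] at hroot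
    exact no_root hp hk _ (Or.inr (by rw [neg_div_neg_eq])) hroot
  · rw [h] at hcs
    have hc2 : c = -(3 * (k : ℤ)) := by rw [hcs]; ring
    rw [hc2] at hcd
    have : (3 * (k : ℤ)) ∣ 2 := ⟨-(b * G.leadingCoeff) - 2, by linear_combination -hcd⟩
    have := Int.le_of_dvd (by norm_num) this
    omega
  · rw [h] at hcs
    have hcq : (c : ℚ) = 2 := by rw [hcs]; push_cast; ring
    rw [hcq] at hroot
    exact no_root hp hk _ (Or.inl rfl) hroot
  · rw [h] at hcs
    have hc2 : c = 3 * (k : ℤ) + 4 := by rw [hcs]; ring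
    rw [hc2] at hcd
    have : (3 * (k : ℤ) + 4) ∣ 6 := ⟨2 - b * G.leadingCoeff, by linear_combination hcd⟩
    have := Int.le_of_dvd (by norm_num) this
    omega

lemma irr_int {k : ℕ} (hp : (3 * k + 2).Prime) (hk : 1 ≤ k) :
    Irreducible (derivative (cyclotomic (3 * (3 * k + 2)) ℤ)) := by
  refine ⟨fun h => natDeg hp (natDegree_eq_zero_of_isUnit h), ?_⟩
  intro G H hGH
  by_cases hH : (X ^ 2 + X + 1 : (ZMod (3 * k + 2))[X]) ∣
      H.map (Int.castRingHom (ZMod (3 * k + 2)))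
  · by_cases hG : (X ^ 2 + X + 1 : (ZMod (3 * k + 2))[X]) ∣
        G.map (Int.castRingHom (ZMod (3 * k + 2)))
    · exact (not_both hp hk hGH hG hH).elim
    · exact Or.inl (small hp hk (by rw [hGH, mul_comm]) hG)
  · exact Or.inr (small hp hk hGH hH)

lemma three {k : ℕ} (hp : (3 * k + 2).Prime) (hk : 1 ≤ k) :
    Irreducible (derivative (cyclotomic (3 * (3 * k + 2)) ℚ)) := by
  have hirr := irr_int hp hk
  have hprim : (derivative (cyclotomic (3 * (3 * k + 2)) ℤ)).IsPrimitive := by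
    intro r hr
    rw [C_dvd_iff_dvd_coeff] at hr
    have := hr 0
    rw [eval_zero hp] at this
    exact isUnit_of_dvd_unit this (by norm_num)
  have := (IsPrimitive.Int.irreducible_iff_irreducible_map_cast hprim).1 hirr
  rwa [← derivative_map, map_cyclotomic] at this

lemma six_eq {k : ℕ} (hp : (3 * k + 2).Prime) (hk : 1 ≤ k) :
    cyclotomic (6 * (3 * k + 2)) ℚ = (cyclotomic (3 * (3 * k + 2)) ℚ).comp (-X) := by
  have hodd : Odd (3 * k + 2) := hp.odd_of_ne_two (by omega)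
  have hnd : ¬ (3 * k + 2) ∣ 6 := by
    intro h
    have h2 := Nat.le_of_dvd (by norm_num) h
    have hk' : k = 1 := by omega
    subst hk'
    norm_num at h
  have h := cyclotomic_expand_eq_cyclotomic_mul hp hnd ℚ
  rw [cyclotomic_six] at h
  simp only [map_add, map_sub, map_pow, expand_X, map_one] at h
  have h2 := congrArg (fun f => f.comp (-X)) (ident hp ℚ)
  simp only [mul_comp, add_comp, pow_comp, X_comp, one_comp] at h2
  have e1 : (-X : ℚ[X]) ^ (3 * k + 2) = -X ^ (3 * k + 2) := hodd.neg_pow _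
  have e2 : (-X : ℚ[X]) ^ (6 * k + 4) = X ^ (6 * k + 4) := by
    rw [show 6 * k + 4 = 2 * (3 * k + 2) by ring, pow_mul, pow_mul, neg_sq]
  rw [e1, e2] at h2
  have hne : (X ^ 2 - X + 1 : ℚ[X]) ≠ 0 := by
    intro hz
    have := congrArg (eval 0) hz
    simp at this
  apply mul_right_cancel₀ hne
  rw [← h]
  linear_combination -h2

lemma six {k : ℕ} (hp : (3 * k + 2).Prime) (hk : 1 ≤ k) :
    Irreducible (derivative (cyclotomic (6 * (3 * k + 2)) ℚ)) := by
  rw [six_eq hp hk, derivative_comp]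
  have h1 : derivative (-X : ℚ[X]) = -1 := by simp
  rw [h1, neg_one_mul]
  have h2 := (MulEquiv.irreducible_iff (algEquivAevalNegX (R := ℚ))).2 (three hp hk)
  have h3 : (algEquivAevalNegX (R := ℚ)) (derivative (cyclotomic (3 * (3 * k + 2)) ℚ))
      = (derivative (cyclotomic (3 * (3 * k + 2)) ℚ)).comp (-X) := by
    simp [comp_eq_aeval]
  rw [h3] at h2
  exact (Associated.neg_left (Associated.refl _)).irreducible_iff.2 h2

theorem result (p : ℕ) (hp : p.Prime) (h5 : 5 ≤ p) (h3 : p % 3 = 2) :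
    Irreducible (derivative (cyclotomic (3 * p) ℚ)) ∧
      Irreducible (derivative (cyclotomic (6 * p) ℚ)) := by
  obtain ⟨k, rfl⟩ : ∃ k, p = 3 * k + 2 := ⟨p / 3, by omega⟩
  have hk : 1 ≤ k := by omega
  exact ⟨three hp hk, six hp hk⟩

end Pool.Agent.Results.MP_734b60_nt.ThreeTimesPrime
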